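import Pool.Agent.V1114.Theta.Defs

namespace Pool.Agent.V1114.Theta

/-- a decision tree over the choices of paths for the pairs of vertices -/
inductive Tree
  | x : Tree
  | d (g : ℕ) : Tree
  | l (k : ℕ) : Tree
  | n (g : ℕ) (a b c e : Tree) : Tree

def memB (a : ℕ) : List ℕ → Bool
  | [] => false
  | b :: l => Nat.beq a b || memB a l

def prefB : List ℕ → List ℕ → Bool
  | [], _ => true
  | _ :: _, [] => false
  | a :: l, b :: m => Nat.beq a b && prefB l m

def infB (p : List ℕ) : List ℕ → Bool
  | [] => prefB p []
  | b :: m => prefB p (b :: m) || infB p m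

theorem memB_iff (a : ℕ) (l : List ℕ) : memB a l = true ↔ a ∈ l := by
  induction l with
  | nil => simp [memB]
  | cons b l ih => simp [memB, ih]

theorem prefB_of (p t : List ℕ) : prefB p (p ++ t) = true := by
  induction p with
  | nil => simp [prefB]
  | cons a p ih => simp [prefB, ih]

theorem infB_of {p l : List ℕ} (h : p <:+: l) : infB p l = true := by
  obtain ⟨s, t, rfl⟩ := h
  induction s with
  | nil =>
    cases p with
    | nil => cases t <;> simp [infB, prefB]
    | cons a p =>
      simp only [List.nil_append, List.cons_append, infB, Bool.or_eq_true]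
      left
      exact prefB_of (a :: p) t
  | cons b s ih =>
    simp only [List.cons_append, infB, Bool.or_eq_true]
    right
    simpa using ih

/-- if both ends of `q` are on `p` then `q` is a part of `p` (up to orientation) -/
def sub1 (p q : List ℕ) : Bool :=
  !(memB (q.headD 0) p && memB (q.getLastD 0) p) || (infB q p || infB q.reverse p)

def compatB (p q : List ℕ) : Bool := sub1 p q && sub1 q p

/-- index of an edge of the theta graph with three paths of length three -/
def edgeIx (a b : ℕ) : ℕ :=
  match a, b with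
  | 0, 2 => 0
  | 2, 0 => 0
  | 2, 3 => 1
  | 3, 2 => 1
  | 3, 1 => 2
  | 1, 3 => 2
  | 0, 4 => 3
  | 4, 0 => 3
  | 4, 5 => 4
  | 5, 4 => 4
  | 5, 1 => 5
  | 1, 5 => 5
  | 0, 6 => 6
  | 6, 0 => 6
  | 6, 7 => 7
  | 7, 6 => 7
  | 7, 1 => 8
  | 1, 7 => 8
  | _, _ => 9

/-- adjacency -/
def adjB (a b : ℕ) : Bool := Nat.ble (edgeIx a b) 8

def wt (w : List ℕ) : List ℕ → ℕ
  | [] => 0
  | [_] => 0
  | a :: b :: l => w.getD (edgeIx a b) 0 + wt w (b :: l)

/-- all simple paths starting at `u` avoiding `vis` -/
def simplePaths : ℕ → List ℕ → ℕ → List (List ℕ)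
  | 0, _, _ => []
  | f + 1, vis, u =>
    [u] :: ((List.range 8).filter fun x => adjB u x && !(memB x (u :: vis))).flatMap
      fun x => (simplePaths f (u :: vis) x).map (u :: ·)

def gidx (a b : ℕ) : ℕ := a * (15 - a) / 2 + (b - a - 1)

def groupsOK (groups : List (List (List ℕ))) : Bool :=
  (List.range 8).all fun a => (simplePaths 8 [] a).all fun L =>
    Nat.ble (L.getLastD 0) a || (groups.getD (gidx a (L.getLastD 0)) []).any fun L' => decide (L' = L)

def idx4 : List ℕ := [0, 1, 2, 3]

def compatOK (groups : List (List (List ℕ))) (cmasks : List ℕ) : Bool :=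
  (List.range 28).all fun g => idx4.all fun r => (List.range 28).all fun g' => idx4.all fun r' =>
    match (groups.getD g [])[r]?, (groups.getD g' [])[r']? with
    | some L, some L' => !(compatB L L') || (cmasks.getD (4 * g + r) 0).testBit (4 * g' + r')
    | _, _ => true

def weightOK (groups : List (List (List ℕ))) (p : List ℕ × ℕ) : Bool :=
  (List.range 28).all fun g => idx4.all fun r =>
    match (groups.getD g [])[r]? with
    | some L => !(p.2.testBit (4 * g + r)) || (groups.getD g []).all fun L' => Nat.ble (wt p.1 L) (wt p.1 L')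
    | _ => true

def lenOK (groups : List (List (List ℕ))) : Bool :=
  (List.range 28).all fun g => Nat.ble (groups.getD g []).length 4

def checkT (groups : List (List (List ℕ))) (cmasks : List ℕ) (ws : List (List ℕ × ℕ)) :
    Tree → ℕ → Bool
  | .x, _ => false
  | .d g, M => Nat.ble g 27 && Nat.beq ((M >>> (4 * g)) % 16) 0
  | .l k, M => (match ws[k]? with
      | some p => Nat.beq (M &&& p.2) M
      | none => false)
  | .n g a b c e, M => Nat.ble g 27 &&
      ((!(M.testBit (4 * g)) || checkT groups cmasks ws a (M &&& cmasks.getD (4 * g) 0)) &&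
      ((!(M.testBit (4 * g + 1)) || checkT groups cmasks ws b (M &&& cmasks.getD (4 * g + 1) 0)) &&
      ((!(M.testBit (4 * g + 2)) || checkT groups cmasks ws c (M &&& cmasks.getD (4 * g + 2) 0)) &&
      (!(M.testBit (4 * g + 3)) || checkT groups cmasks ws e (M &&& cmasks.getD (4 * g + 3) 0)))))

end Pool.Agent.V1114.Theta
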