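import Mathlib

/-!
Definitions for metrizability of graphs (consistent path systems) and theta graphs.
-/

namespace Pool.Agent.V1114.Theta

open SimpleGraph

universe u

/-- A path system of a graph `G`: for every pair of vertices `u, v` exactly one path joining
them (the path for the pair `(v, u)` is the reverse of the path for `(u, v)`). -/
structure PathSystem {V : Type u} (G : SimpleGraph V) where
  path : ∀ u v : V, G.Walk u v
  isPath : ∀ u v, (path u v).IsPath
  symm : ∀ u v, path v u = (path u v).reverse

/-- A path system is consistent if every subpath (contiguous part) of a path of the system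
is the path of the system between its ends. -/
def PathSystem.Consistent {V : Type u} {G : SimpleGraph V} (P : PathSystem G) : Prop :=
  ∀ (u v x y : V) (q : G.Walk x y), q.IsSubwalk (P.path u v) → q = P.path x y

/-- The weight of a walk: the sum of the weights of its edges. -/
noncomputable def weight {V : Type u} {G : SimpleGraph V} (w : Sym2 V → ℝ) {u v : V}
    (p : G.Walk u v) : ℝ :=
  (p.edges.map w).sum

/-- The graph `G` is metrizable: every consistent path system of `G` is induced by some
positive weights on the edges, i.e. all its paths are of minimal weight among the paths with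
the same ends. -/
def Metrizable {V : Type u} (G : SimpleGraph V) : Prop :=
  ∀ P : PathSystem G, P.Consistent →
    ∃ w : Sym2 V → ℝ, (∀ e ∈ G.edgeSet, 0 < w e) ∧
      ∀ (u v : V) (q : G.Walk u v), q.IsPath → weight w (P.path u v) ≤ weight w q

/-- Vertices of the theta graph whose three paths have `len 0`, `len 1`, `len 2` edges: the
two end vertices `s`, `t`, and the `len i - 1` interior vertices of the `i`-th path. -/
inductive Vertex (len : Fin 3 → ℕ) : Type
  | s : Vertex len
  | t : Vertex len
  | mid (i : Fin 3) (k : Fin (len i - 1)) : Vertex len
deriving DecidableEq

/-- The `k`-th vertex of the `i`-th path, `0 ≤ k ≤ len i`, counted from `s`. -/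
def point (len : Fin 3 → ℕ) (i : Fin 3) (k : ℕ) : Vertex len :=
  if _hk : k = 0 then Vertex.s
  else if h : k < len i then Vertex.mid i ⟨k - 1, by omega⟩
  else Vertex.t

/-- The theta graph with path lengths `len 0`, `len 1`, `len 2`: two vertices are adjacent if
they are consecutive on one of the three paths. -/
def thetaGraph (len : Fin 3 → ℕ) : SimpleGraph (Vertex len) :=
  SimpleGraph.fromRel fun x y =>
    ∃ (i : Fin 3) (k : ℕ), k < len i ∧ x = point len i k ∧ y = point len i (k + 1)

end Pool.Agent.V1114.Theta
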