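import Pool.Agent.V1114.Theta.Verify

namespace Pool.Agent.V1114.Theta

open SimpleGraph

abbrev L3 : Fin 3 → ℕ := fun _ => 3

def code : Vertex L3 → ℕ
  | .s => 0
  | .t => 1
  | .mid i k => 2 + 2 * i.val + k.val

theorem code_lt (x : Vertex L3) : code x < 8 := by
  rcases x with _ | _ | ⟨i, k⟩
  · simp [code]
  · simp [code]
  · have := i.isLt
    have hk : k.val < 2 := k.isLt
    simp only [code]
    omega

theorem code_inj {x y : Vertex L3} (h : code x = code y) : x = y := by
  rcases x with _ | _ | ⟨i, k⟩ <;> rcases y with _ | _ | ⟨j, l⟩ <;> simp only [code] at h ⊢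
  · omega
  · omega
  · omega
  · omega
  · omega
  · omega
  · have hk : k.val < 2 := k.isLt
    have hl : l.val < 2 := l.isLt
    have h1 : i = j := Fin.ext (by omega)
    subst h1
    have h2 : k = l := Fin.ext (by omega)
    subst h2
    rfl

theorem code_surj {a : ℕ} (h : a < 8) : ∃ x, code x = a := by
  interval_cases a
  · exact ⟨.s, rfl⟩
  · exact ⟨.t, rfl⟩
  · exact ⟨.mid 0 ⟨0, by decide⟩, rfl⟩
  · exact ⟨.mid 0 ⟨1, by decide⟩, rfl⟩
  · exact ⟨.mid 1 ⟨0, by decide⟩, rfl⟩
  · exact ⟨.mid 1 ⟨1, by decide⟩, rfl⟩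
  · exact ⟨.mid 2 ⟨0, by decide⟩, rfl⟩
  · exact ⟨.mid 2 ⟨1, by decide⟩, rfl⟩

theorem edgeIx_symm (a b : ℕ) : edgeIx a b = edgeIx b a := by
  by_cases ha : a < 8
  · by_cases hb : b < 8
    · interval_cases a <;> interval_cases b <;> rfl
    · rw [edgeIx.eq_def, edgeIx.eq_def]
      split <;> split <;> omega
  · rw [edgeIx.eq_def, edgeIx.eq_def]
    split <;> split <;> omega

theorem adj_code {x y : Vertex L3} (h : (thetaGraph L3).Adj x y) :
    edgeIx (code x) (code y) ≤ 8 := by
  have key : ∀ (i : Fin 3) (k : ℕ), k < 3 →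
      edgeIx (code (point L3 i k)) (code (point L3 i (k + 1))) ≤ 8 := by
    intro i k hk
    fin_cases i <;> interval_cases k <;> decide
  rw [thetaGraph, SimpleGraph.fromRel_adj] at h
  obtain ⟨-, ⟨i, k, hk, rfl, rfl⟩ | ⟨i, k, hk, rfl, rfl⟩⟩ := h
  · exact key i k hk
  · rw [edgeIx_symm]
    exact key i k hk

theorem adjB_code {x y : Vertex L3} (h : (thetaGraph L3).Adj x y) :
    adjB (code x) (code y) = true := by
  rw [adjB, Nat.ble_eq]
  exact adj_code h

theorem mem_simplePaths : ∀ {x y : Vertex L3} (p : (thetaGraph L3).Walk x y) (f : ℕ)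
    (vis : List ℕ), p.IsPath → (∀ z ∈ p.support, code z ∉ vis) → p.length < f →
    p.support.map code ∈ simplePaths f vis (code x) := by
  intro x y p
  induction p with
  | nil =>
    intro f vis _ _ hf
    obtain ⟨f, rfl⟩ : ∃ g, f = g + 1 := ⟨f - 1, by simp at hf; omega⟩
    simp [simplePaths]
  | @cons a b c h p ih =>
    intro f vis hp hv hf
    obtain ⟨f, rfl⟩ : ∃ g, f = g + 1 := ⟨f - 1, by simp at hf; omega⟩
    rw [Walk.cons_isPath_iff] at hp
    rw [simplePaths, List.mem_cons]
    right
    rw [List.mem_flatMap]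
    refine ⟨code b, ?_, ?_⟩
    · rw [List.mem_filter]
      refine ⟨List.mem_range.2 (code_lt b), ?_⟩
      rw [Bool.and_eq_true]
      refine ⟨adjB_code h, ?_⟩
      rw [Bool.not_eq_true', ← Bool.not_eq_true, memB_iff, List.mem_cons]
      rintro (h' | h')
      · exact h.ne (code_inj h').symm
      · exact hv b (by simp) h'
    · rw [Walk.support_cons, List.map_cons, List.mem_map]
      refine ⟨_, ih f (code a :: vis) hp.1 ?_ ?_, rfl⟩
      · intro z hz hz'
        rw [List.mem_cons] at hz'
        rcases hz' with h' | h'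
        · have := code_inj h'
          subst this
          exact hp.2 hz
        · exact hv z (by simp [hz]) h'
      · simp at hf
        omega

noncomputable instance : Fintype (Vertex L3) :=
  Fintype.ofInjective (fun x => (⟨code x, code_lt x⟩ : Fin 8)) (fun x y h => code_inj (by
    simpa using h))

theorem card_le : Fintype.card (Vertex L3) ≤ 8 := by
  have := Fintype.card_le_of_injective (fun x : Vertex L3 => (⟨code x, code_lt x⟩ : Fin 8))
    (fun x y h => code_inj (by simpa using h))
  simpa using this

theorem getLastD_map {x y : Vertex L3} (p : (thetaGraph L3).Walk x y) :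
    (p.support.map code).getLastD 0 = code y := by
  have h : p.support.map code ≠ [] := by simp
  rw [List.getLastD_eq_getLast?, List.getLast?_eq_getLast_of_ne_nil h]
  simp

theorem headD_map {x y : Vertex L3} (p : (thetaGraph L3).Walk x y) :
    (p.support.map code).headD 0 = code x := by
  cases p <;> simp

theorem mem_group {u v : Vertex L3} (h : code u < code v) (q : (thetaGraph L3).Walk u v)
    (hq : q.IsPath) : q.support.map code ∈ groups.getD (gidx (code u) (code v)) [] := by
  have h1 := mem_simplePaths q 8 [] hq (by simp) (lt_of_lt_of_le hq.length_lt card_le)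
  have h2 := groups_ok
  rw [groupsOK, List.all_eq_true] at h2
  have h3 := h2 (code u) (List.mem_range.2 (code_lt u))
  rw [List.all_eq_true] at h3
  have h4 := h3 _ h1
  rw [getLastD_map, Bool.or_eq_true, Nat.ble_eq] at h4
  rcases h4 with h4 | h4
  · omega
  · rw [List.any_eq_true] at h4
    obtain ⟨L, hL, hL'⟩ := h4
    simp only [decide_eq_true_eq] at hL'
    rw [← hL']
    exact hL

theorem gidx_lt {a b : ℕ} (h : a < b) (hb : b < 8) : gidx a b < 28 := by
  interval_cases b <;> interval_cases a <;> decide

theorem gidx_surj {g : ℕ} (h : g < 28) : ∃ a b, a < b ∧ b < 8 ∧ gidx a b = g := by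
  have : ∀ g < 28, ∃ a < 8, ∃ b < 8, a < b ∧ gidx a b = g := by decide
  obtain ⟨a, ha, b, hb, hab, hg⟩ := this g h
  exact ⟨a, b, hab, hb, hg⟩

section

variable (P : PathSystem (thetaGraph L3))

/-- `L` is the list of codes of a path of the system -/
def Pc (L : List ℕ) : Prop := ∃ u v, (P.path u v).support.map code = L

def Sel (i : ℕ) : Prop :=
  ∃ g r L, g < 28 ∧ r < 4 ∧ i = 4 * g + r ∧ (groups.getD g [])[r]? = some L ∧ Pc P L

theorem sel_index {u v : Vertex L3} (h : code u < code v) :
    ∃ r, r < 4 ∧ (groups.getD (gidx (code u) (code v)) [])[r]? =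
      some ((P.path u v).support.map code) ∧ Sel P (4 * gidx (code u) (code v) + r) := by
  have h1 := mem_group h (P.path u v) (P.isPath u v)
  have hg := gidx_lt h (code_lt v)
  obtain ⟨r, hr⟩ := List.mem_iff_getElem?.1 h1
  have hr4 : r < 4 := by
    have h2 := len_ok
    rw [lenOK, List.all_eq_true] at h2
    have h3 := h2 _ (List.mem_range.2 hg)
    rw [Nat.ble_eq] at h3
    have := (List.getElem?_eq_some_iff.1 hr).1
    omega
  exact ⟨r, hr4, hr, _, r, _, hg, hr4, rfl, hr, u, v, rfl⟩

theorem sel_exists {g : ℕ} (hg : g < 28) : ∃ r, r < 4 ∧ Sel P (4 * g + r) := by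
  obtain ⟨a, b, hab, hb, rfl⟩ := gidx_surj hg
  obtain ⟨u, rfl⟩ := code_surj (lt_trans hab hb)
  obtain ⟨v, rfl⟩ := code_surj hb
  obtain ⟨r, hr, -, h⟩ := sel_index P hab
  exact ⟨r, hr, h⟩

variable {P}

theorem infix_of (hP : P.Consistent) {u v x y : Vertex L3} (hx : x ∈ (P.path u v).support)
    (hy : y ∈ (P.path u v).support) :
    (P.path x y).support <:+: (P.path u v).support ∨
      (P.path x y).support.reverse <:+: (P.path u v).support := by
  classical
  have hs := (P.path u v).take_spec hx
  have hy' := hy
  rw [← hs, Walk.mem_support_append_iff] at hy'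
  rcases hy' with h | h
  · right
    have h1 : (((P.path u v).takeUntil x hx).dropUntil y h).IsSubwalk (P.path u v) := by
      refine Walk.IsSubwalk.trans (p₂ := (P.path u v).takeUntil x hx) ?_ ?_
      · exact Walk.isSubwalk_dropUntil _ _
      · exact Walk.isSubwalk_takeUntil _ _
    have h2 := hP u v y x _ h1
    rw [P.symm y x, Walk.support_reverse, List.reverse_reverse]
    rw [h2] at h1
    exact Walk.isSubwalk_iff_support_isInfix.1 h1
  · left
    have h1 : (((P.path u v).dropUntil x hx).takeUntil y h).IsSubwalk (P.path u v) := by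
      refine Walk.IsSubwalk.trans (p₂ := (P.path u v).dropUntil x hx) ?_ ?_
      · exact Walk.isSubwalk_takeUntil _ _
      · exact Walk.isSubwalk_dropUntil _ _
    have h2 := hP u v x y _ h1
    rw [h2] at h1
    exact Walk.isSubwalk_iff_support_isInfix.1 h1

theorem mem_of_code {x u v : Vertex L3} (p : (thetaGraph L3).Walk u v)
    (h : code x ∈ p.support.map code) : x ∈ p.support := by
  rw [List.mem_map] at h
  obtain ⟨z, hz, h⟩ := h
  rwa [← code_inj h]

theorem sub1_of (hP : P.Consistent) {L L' : List ℕ} (h : Pc P L) (h' : Pc P L') :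
    sub1 L L' = true := by
  obtain ⟨u, v, rfl⟩ := h
  obtain ⟨x, y, rfl⟩ := h'
  rw [sub1, headD_map, getLastD_map]
  by_cases hx : x ∈ (P.path u v).support
  · by_cases hy : y ∈ (P.path u v).support
    · rw [Bool.or_eq_true]
      right
      rw [Bool.or_eq_true]
      rcases infix_of hP hx hy with h | h
      · left
        exact infB_of (h.map code)
      · right
        refine infB_of ?_
        rw [← List.map_reverse]
        exact h.map code
    · have : memB (code y) ((P.path u v).support.map code) = false := by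
        rw [← Bool.not_eq_true, memB_iff]
        exact fun h => hy (mem_of_code _ h)
      simp [this]
  · have : memB (code x) ((P.path u v).support.map code) = false := by
      rw [← Bool.not_eq_true, memB_iff]
      exact fun h => hx (mem_of_code _ h)
    simp [this]

theorem compat_of (hP : P.Consistent) {i j : ℕ} (hi : Sel P i) (hj : Sel P j) :
    (cmasks.getD i 0).testBit j = true := by
  obtain ⟨g, r, L, hg, hr, rfl, hL, hPL⟩ := hi
  obtain ⟨g', r', L', hg', hr', rfl, hL', hPL'⟩ := hj
  have h := compat_ok
  have hidx : ∀ r < 4, r ∈ idx4 := by decide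
  rw [compatOK, List.all_eq_true] at h
  have h1 := h g (List.mem_range.2 hg)
  rw [List.all_eq_true] at h1
  have h2 := h1 r (hidx r hr)
  rw [List.all_eq_true] at h2
  have h3 := h2 g' (List.mem_range.2 hg')
  rw [List.all_eq_true] at h3
  have h4 := h3 r' (hidx r' hr')
  rw [hL, hL'] at h4
  simp only [compatB, sub1_of hP hPL hPL', sub1_of hP hPL' hPL, Bool.and_self,
    Bool.not_true, Bool.false_or] at h4
  exact h4

theorem sound (hP : P.Consistent) (t : Tree) : ∀ M : ℕ, (∀ i, Sel P i → M.testBit i = true) →
    checkT groups cmasks weights t M = true →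
    ∃ p ∈ weights, ∀ i, Sel P i → p.2.testBit i = true := by
  induction t with
  | x => intro M _ h; simp [checkT] at h
  | d g =>
    intro M hM h
    rw [checkT, Bool.and_eq_true, Nat.ble_eq, Nat.beq_eq] at h
    obtain ⟨r, hr, hs⟩ := sel_exists P (g := g) (by omega)
    have h1 := hM _ hs
    have h2 : ((M >>> (4 * g)) % 2 ^ 4).testBit r = true := by
      rw [Nat.testBit_mod_two_pow]
      simp [Nat.testBit_shiftRight, h1, hr]
    rw [show (2 : ℕ) ^ 4 = 16 from rfl, h.2] at h2
    simp at h2
  | l k =>
    intro M hM h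
    rw [checkT] at h
    cases hk : weights[k]? with
    | none => rw [hk] at h; simp at h
    | some p =>
      rw [hk] at h
      simp only [Nat.beq_eq] at h
      refine ⟨p, List.mem_of_getElem? hk, fun i hi => ?_⟩
      have h1 := hM i hi
      rw [← h, Nat.testBit_and, Bool.and_eq_true] at h1
      exact h1.2
  | n g a b c e iha ihb ihc ihe =>
    intro M hM h
    rw [checkT, Bool.and_eq_true, Nat.ble_eq] at h
    obtain ⟨hg, h⟩ := h
    obtain ⟨r, hr, hs⟩ := sel_exists P (g := g) (by omega)
    have h1 := hM _ hs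
    have hM' : ∀ i, Sel P i → (M &&& cmasks.getD (4 * g + r) 0).testBit i = true := by
      intro i hi
      rw [Nat.testBit_and, hM i hi, compat_of hP hs hi]
      rfl
    simp only [Bool.and_eq_true, Bool.or_eq_true, Bool.not_eq_true'] at h
    obtain ⟨ha, hb, hc, he⟩ := h
    interval_cases r
    · rcases ha with ha | ha
      · rw [add_zero] at h1; rw [h1] at ha; simp at ha
      · exact iha _ hM' ha
    · rcases hb with hb | hb
      · rw [h1] at hb; simp at hb
      · exact ihb _ hM' hb
    · rcases hc with hc | hc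
      · rw [h1] at hc; simp at hc
      · exact ihc _ hM' hc
    · rcases he with he | he
      · rw [h1] at he; simp at he
      · exact ihe _ hM' he

theorem exists_weight (hP : P.Consistent) :
    ∃ p ∈ weights, ∀ i, Sel P i → p.2.testBit i = true := by
  refine sound hP tree fullMask ?_ tree_ok
  rintro i ⟨g, r, L, hg, hr, rfl, hL, -⟩
  have h := full_ok
  rw [List.all_eq_true] at h
  have h1 := h g (List.mem_range.2 hg)
  rw [List.all_eq_true] at h1
  have h2 := h1 r (List.mem_range.2 hr)
  rw [hL] at h2
  exact h2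

end

/-- the real weights -/
noncomputable def rw' (w : List ℕ) : Sym2 (Vertex L3) → ℝ :=
  Sym2.lift ⟨fun x y => ((w.getD (edgeIx (code x) (code y)) 0 : ℕ) : ℝ), fun x y => by
    show ((w.getD (edgeIx (code x) (code y)) 0 : ℕ) : ℝ) =
      ((w.getD (edgeIx (code y) (code x)) 0 : ℕ) : ℝ)
    rw [edgeIx_symm]⟩

theorem weight_eq (w : List ℕ) {u v : Vertex L3} (p : (thetaGraph L3).Walk u v) :
    weight (rw' w) p = ((wt w (p.support.map code) : ℕ) : ℝ) := by
  unfold weight
  induction p with
  | nil => simp [wt]
  | @cons a b c h p ih =>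
    have hs : p.support = b :: p.support.tail := (Walk.cons_tail_support p).symm
    rw [Walk.edges_cons, List.map_cons, List.sum_cons, ih, Walk.support_cons, hs]
    simp only [List.map_cons, wt, Nat.cast_add]
    rfl

theorem weight_reverse (w : Sym2 (Vertex L3) → ℝ) {u v : Vertex L3}
    (p : (thetaGraph L3).Walk u v) : weight w p.reverse = weight w p := by
  simp [weight, Walk.edges_reverse, List.map_reverse, List.sum_reverse]

theorem metrizable_three : Metrizable (thetaGraph L3) := by
  intro P hP
  obtain ⟨p, hp, hsel⟩ := exists_weight hP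
  have hlt : ∀ (u v : Vertex L3) (q : (thetaGraph L3).Walk u v), q.IsPath → code u < code v →
      weight (rw' p.1) (P.path u v) ≤ weight (rw' p.1) q := by
    intro u v q hq huv
    obtain ⟨r, hr, hL, hs⟩ := sel_index P huv
    have h1 := hsel _ hs
    have h := weights_ok
    rw [List.all_eq_true] at h
    have h2 := h p hp
    rw [weightOK, List.all_eq_true] at h2
    have h3 := h2 _ (List.mem_range.2 (gidx_lt huv (code_lt v)))
    rw [List.all_eq_true] at h3
    have hidx : ∀ r < 4, r ∈ idx4 := by decide
    have h4 := h3 r (hidx r hr)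
    rw [hL] at h4
    simp only [h1, Bool.not_true, Bool.false_or, List.all_eq_true, Nat.ble_eq] at h4
    have h5 := h4 _ (mem_group huv q hq)
    rw [weight_eq, weight_eq]
    exact_mod_cast h5
  refine ⟨rw' p.1, ?_, ?_⟩
  · intro e he
    induction e using Sym2.ind with
    | _ x y =>
      have h := pos_ok
      rw [List.all_eq_true] at h
      have h1 := h p hp
      rw [List.all_eq_true] at h1
      have h2 := h1 (edgeIx (code x) (code y)) (List.mem_range.2 (by
        have := adj_code (SimpleGraph.mem_edgeSet _ |>.1 he)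
        omega))
      rw [Nat.ble_eq] at h2
      show (0 : ℝ) < ((p.1.getD (edgeIx (code x) (code y)) 0 : ℕ) : ℝ)
      exact_mod_cast h2
  · intro u v q hq
    rcases lt_trichotomy (code u) (code v) with h | h | h
    · exact hlt u v q hq h
    · have := code_inj h
      subst this
      have h1 : P.path u u = Walk.nil := Walk.nil_iff_eq_nil.1 (Walk.isPath_iff_nil.1 (P.isPath u u))
      have h2 : q = Walk.nil := Walk.nil_iff_eq_nil.1 (Walk.isPath_iff_nil.1 hq)
      rw [h1, h2]
    · have h1 := hlt v u q.reverse hq.reverse h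
      rw [weight_reverse] at h1
      rw [P.symm v u, weight_reverse]
      exact h1

end Pool.Agent.V1114.Theta
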