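import Pool.Agent.V1114.Theta.Data

namespace Pool.Agent.V1114.Theta

set_option maxRecDepth 100000

theorem groups_ok : groupsOK groups = true := by decide +kernel
theorem len_ok : lenOK groups = true := by decide +kernel
theorem tree_ok : checkT groups cmasks weights tree fullMask = true := by decide +kernel
theorem weights_ok : (weights.all fun p => weightOK groups p) = true := by decide +kernel
theorem compat_ok : compatOK groups cmasks = true := by decide +kernel
theorem pos_ok : (weights.all fun p => (List.range 9).all fun i => Nat.ble 1 (p.1.getD i 0)) = true := by
  decide +kernel
theorem full_ok : ((List.range 28).all fun g => (List.range 4).all fun r =>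
    (match (groups.getD g [])[r]? with
      | some _ => fullMask.testBit (4 * g + r)
      | none => true)) = true := by
  decide +kernel

end Pool.Agent.V1114.Theta
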